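import Pool.Agent.H51.MFQ.S1

/-!
# MFQ, module COM: the Mishchenko-Fomenko algebra is Poisson commutative
-/

set_option autoImplicit false

open Module

namespace Pool.MFQ

namespace COMaux

/-- iterated derivative of a continuous linear image -/
theorem comp_left {F G : Type} [NormedAddCommGroup F] [NormedSpace ℂ F] [NormedAddCommGroup G]
    [NormedSpace ℂ G] (L : F →L[ℂ] G) {g : ℂ → F} {x : ℂ} (k : ℕ) (hg : ContDiffAt ℂ k g x) :
    iteratedDeriv k (fun s => L (g s)) x = L (iteratedDeriv k g x) := by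
  rw [iteratedDeriv_eq_iteratedFDeriv, iteratedDeriv_eq_iteratedFDeriv]
  have h := L.iteratedFDeriv_comp_left hg (le_refl (k : WithTop ℕ∞))
  change iteratedFDeriv ℂ k (L ∘ g) x _ = _
  rw [h]
  rfl

variable {E : Type} [NormedAddCommGroup E] [NormedSpace ℂ E]

/-- restriction of an analytic function to a line -/
theorem anal_line {F : Type} [NormedAddCommGroup F] [NormedSpace ℂ F] {f : E → F} {a : E} (ξ : E)
    (hf : AnalyticAt ℂ f a) : AnalyticAt ℂ (fun s : ℂ => f (a + s • ξ)) 0 := by
  have h1 : AnalyticAt ℂ (fun s : ℂ => a + s • ξ) 0 := by fun_prop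
  exact hf.comp_of_eq h1 (by simp)

theorem anal_apply {f : E → ℂ} {a : E} (t v : E) (hf : AnalyticAt ℂ f a) :
    AnalyticAt ℂ (fun s : ℂ => fderiv ℂ f (a + s • t) v) 0 := by
  have h1 := anal_line t hf.fderiv
  have h2 : AnalyticAt ℂ (fun L : E →L[ℂ] ℂ => L v) (fderiv ℂ f a) :=
    (ContinuousLinearMap.apply ℂ ℂ v).analyticAt _
  exact h2.comp_of_eq h1 (by simp)

/-- near `0` the derivative along the line is the directional derivative -/
theorem deriv_line {F : Type} [NormedAddCommGroup F] [NormedSpace ℂ F] [CompleteSpace F]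
    {f : E → F} {a : E} (ξ : E) (hf : AnalyticAt ℂ f a) :
    deriv (fun s : ℂ => f (a + s • ξ)) =ᶠ[nhds 0] fun s => fderiv ℂ f (a + s • ξ) ξ := by
  have h1 : Filter.Tendsto (fun s : ℂ => a + s • ξ) (nhds 0) (nhds a) := by
    have : Continuous (fun s : ℂ => a + s • ξ) := by fun_prop
    simpa using this.tendsto 0
  filter_upwards [h1.eventually hf.eventually_analyticAt] with s hs
  have h2 : HasDerivAt (fun s : ℂ => a + s • ξ) ξ s := by
    simpa using ((hasDerivAt_id s).smul_const ξ).const_add a
  exact (hs.differentiableAt.hasFDerivAt.comp_hasDerivAt s h2).deriv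

/-- iterated derivatives along a line -/
theorem line (k : ℕ) : ∀ (F : Type) [NormedAddCommGroup F] [NormedSpace ℂ F] [CompleteSpace F]
    (f : E → F) (a ξ : E), AnalyticAt ℂ f a →
    iteratedDeriv k (fun s : ℂ => f (a + s • ξ)) 0 = iteratedFDeriv ℂ k f a (fun _ => ξ) := by
  induction k with
  | zero =>
    intro F _ _ _ f a ξ hf
    simp
  | succ k ih =>
    intro F _ _ _ f a ξ hf
    rw [iteratedFDeriv_succ_apply_right, iteratedDeriv_succ',
      (deriv_line ξ hf).iteratedDeriv_eq k]
    have h1 := ih (E →L[ℂ] F) (fun y => fderiv ℂ f y) a ξ hf.fderiv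
    have h2 := comp_left (ContinuousLinearMap.apply ℂ F ξ)
      (g := fun s : ℂ => fderiv ℂ f (a + s • ξ)) (x := 0) k (anal_line ξ hf.fderiv).contDiffAt
    change iteratedDeriv k (fun s => (ContinuousLinearMap.apply ℂ F ξ) (fderiv ℂ f (a + s • ξ))) 0
      = _
    rw [h2, h1]
    rfl

/-- the directional derivative of a Taylor coefficient -/
theorem fderiv_tayE {f : E → ℂ} {a : E} (hf : AnalyticAt ℂ f a) (m : ℕ) (t v : E) :
    fderiv ℂ (tayE a f (m + 1)) t v = tayE a (fun ξ => fderiv ℂ f ξ v) m t := by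
  have h1 : tayE a f (m + 1) = fun ξ => (((m + 1).factorial : ℕ) : ℂ)⁻¹ *
      iteratedFDeriv ℂ (m + 1) f a (fun _ => ξ) := by
    funext ξ
    rw [tayE, line (m + 1) ℂ f a ξ hf]
  have h2 : HasFDerivAt (fun ξ : E => iteratedFDeriv ℂ (m + 1) f a (fun _ => ξ))
      (((iteratedFDeriv ℂ (m + 1) f a).linearDeriv (fun _ => t)).comp
        (ContinuousLinearMap.pi fun _ : Fin (m + 1) => ContinuousLinearMap.id ℂ E)) t :=
    ((iteratedFDeriv ℂ (m + 1) f a).hasFDerivAt (fun _ => t)).comp t
      (ContinuousLinearMap.pi fun _ : Fin (m + 1) => ContinuousLinearMap.id ℂ E).hasFDerivAt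
  have h3 : ∀ i : Fin (m + 1), iteratedFDeriv ℂ (m + 1) f a (Function.update (fun _ => t) i v) =
      iteratedFDeriv ℂ (m + 1) f a (Function.update (fun _ => t) (Fin.last m) v) := by
    intro i
    rw [← hf.contDiffAt.iteratedFDeriv_comp_perm (Function.update (fun _ => t) (Fin.last m) v)
      (Equiv.swap i (Fin.last m))]
    congr 1
    funext j
    simp only [Function.comp_apply, Function.update_apply]
    by_cases hji : j = i
    · subst hji
      simp
    · rw [if_neg hji, if_neg]
      intro h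
      have := congrArg (Equiv.swap i (Fin.last m)) h
      rw [Equiv.swap_apply_right, Equiv.swap_apply_self] at this
      exact hji this
  have h4 : iteratedFDeriv ℂ (m + 1) f a (Function.update (fun _ => t) (Fin.last m) v) =
      iteratedDeriv m (fun s : ℂ => fderiv ℂ f (a + s • t) v) 0 := by
    rw [iteratedFDeriv_succ_apply_right]
    have h5 := comp_left (ContinuousLinearMap.apply ℂ ℂ v)
      (g := fun s : ℂ => fderiv ℂ f (a + s • t)) (x := 0) m (anal_line t hf.fderiv).contDiffAt
    change _ = iteratedDeriv m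
      (fun s => (ContinuousLinearMap.apply ℂ ℂ v) (fderiv ℂ f (a + s • t))) 0
    rw [h5, line m (E →L[ℂ] ℂ) (fun y => fderiv ℂ f y) a t hf.fderiv]
    have h6 : (Fin.init (Function.update (fun _ => t) (Fin.last m) v) : Fin m → E) =
        fun _ => t := by
      funext j
      simp [Fin.init, (Fin.castSucc_lt_last j).ne]
    rw [h6, Function.update_self]
    rfl
  rw [h1, (h2.const_mul _).fderiv]
  simp only [_root_.smul_apply, ContinuousLinearMap.comp_apply,
    ContinuousMultilinearMap.linearDeriv_apply, smul_eq_mul]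
  have h7 : ∀ i : Fin (m + 1), (ContinuousLinearMap.pi fun _ : Fin (m + 1) =>
      ContinuousLinearMap.id ℂ E) v i = v := fun i => rfl
  simp only [h7, h3, h4, tayE]
  rw [Finset.sum_const, Finset.card_univ, Fintype.card_fin, nsmul_eq_mul, ← mul_assoc,
    Nat.factorial_succ]
  congr 1
  have h8 : ((m + 1 : ℕ) : ℂ) ≠ 0 := by exact_mod_cast (Nat.succ_ne_zero m)
  have h9 : ((m.factorial : ℕ) : ℂ) ≠ 0 := by exact_mod_cast (Nat.factorial_ne_zero m)
  rw [Nat.cast_mul]
  field_simp

/-- Taylor coefficient at `0` -/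
noncomputable def tau (m : ℕ) (g : ℂ → ℂ) : ℂ := ((m.factorial : ℕ) : ℂ)⁻¹ * iteratedDeriv m g 0

theorem tau_id_mul {g : ℂ → ℂ} (hg : AnalyticAt ℂ g 0) :
    tau 0 (fun s => s * g s) = 0 ∧ ∀ m, tau (m + 1) (fun s => s * g s) = tau m g := by
  constructor
  · simp [tau]
  · intro m
    rw [tau, tau, iteratedDeriv_fun_mul (f := fun s : ℂ => s) (g := g) (n := m + 1)
      analyticAt_id.contDiffAt hg.contDiffAt]
    simp only [iteratedDeriv_fun_id_zero]
    rw [Finset.sum_eq_single 1]
    · rw [if_pos rfl, Nat.choose_one_right, Nat.factorial_succ, mul_one, Nat.add_sub_cancel,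
        ← mul_assoc]
      congr 1
      have h8 : ((m + 1 : ℕ) : ℂ) ≠ 0 := by exact_mod_cast (Nat.succ_ne_zero m)
      have h9 : ((m.factorial : ℕ) : ℂ) ≠ 0 := by exact_mod_cast (Nat.factorial_ne_zero m)
      rw [Nat.cast_mul]
      field_simp
    · intro i _ hi
      rw [if_neg hi, mul_zero, zero_mul]
    · intro h
      exact absurd (Finset.mem_range.2 (by omega)) h

theorem rec_rel {κ : Type} [Fintype κ] (c d : κ → ℂ) (g : κ → ℂ → ℂ)
    (hg : ∀ q, AnalyticAt ℂ (g q) 0)
    (h : ∀ᶠ s in nhds (0 : ℂ), ∑ q, (c q + s * d q) * g q s = 0) :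
    (∑ q, c q * tau 0 (g q) = 0) ∧
      ∀ m, ∑ q, c q * tau (m + 1) (g q) + ∑ q, d q * tau m (g q) = 0 := by
  have hm : ∀ m, ∑ q, (c q * tau m (g q) + d q * tau m (fun s => s * g q s)) = 0 := by
    intro m
    have h1 : (fun s : ℂ => ∑ q, (c q * g q s + d q * (s * g q s))) =ᶠ[nhds 0] fun _ => 0 := by
      filter_upwards [h] with s hs
      rw [← hs]
      refine Finset.sum_congr rfl fun q _ => ?_
      ring
    have h2 := h1.iteratedDeriv_eq m
    have h3 : iteratedDeriv m (fun s : ℂ => ∑ q, (c q * g q s + d q * (s * g q s))) 0 =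
        ∑ q, (c q * iteratedDeriv m (g q) 0 + d q * iteratedDeriv m (fun s => s * g q s) 0) := by
      have ha : ∀ q, AnalyticAt ℂ (fun s => s * g q s) 0 := fun q => analyticAt_id.mul (hg q)
      rw [iteratedDeriv_fun_sum]
      · refine Finset.sum_congr rfl fun q _ => ?_
        rw [iteratedDeriv_fun_add, iteratedDeriv_const_mul_field, iteratedDeriv_const_mul_field]
        · exact (analyticAt_const.mul (hg q)).contDiffAt
        · exact (analyticAt_const.mul (ha q)).contDiffAt
      · intro q _
        exact ((analyticAt_const.mul (hg q)).add (analyticAt_const.mul (ha q))).contDiffAt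
    rw [h3] at h2
    have h4 : iteratedDeriv m (fun _ : ℂ => (0 : ℂ)) 0 = 0 := by simp
    rw [h4] at h2
    calc _ = ((m.factorial : ℕ) : ℂ)⁻¹ * ∑ q, (c q * iteratedDeriv m (g q) 0 +
          d q * iteratedDeriv m (fun s => s * g q s) 0) := by
          rw [Finset.mul_sum]
          refine Finset.sum_congr rfl fun q _ => ?_
          rw [tau, tau]
          ring
      _ = 0 := by rw [h2, mul_zero]
  constructor
  · have := hm 0
    simp only [(tau_id_mul (hg _)).1, mul_zero, add_zero] at this
    exact this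
  · intro m
    have := hm (m + 1)
    simp only [(tau_id_mul (hg _)).2] at this
    rw [← this, Finset.sum_add_distrib]

end COMaux

/-- COM -/
theorem t_com : COMStmt := by
  intro 𝔤 _ _ κ _ _ b a f h i j hf hh hi hj t
  -- the form `B c α β = c([α, β])`
  let B : (κ → ℂ) → (κ → ℂ) → (κ → ℂ) → ℂ := fun c α β =>
    ∑ p, α p * ∑ q, β q * opA b p c q
  have hop : ∀ p c q, opA b p c q = ∑ k, b.repr ⁅b p, b q⁆ k * c k := by
    intro p c q
    simp [opA]
  have hskew : ∀ p c q, opA b p c q = - opA b q c p := by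
    intro p c q
    rw [hop, hop, ← Finset.sum_neg_distrib]
    refine Finset.sum_congr rfl fun k _ => ?_
    rw [← lie_skew (b p) (b q), map_neg, Finsupp.neg_apply]
    ring
  have hB : ∀ c α β, B c α β = - B c β α := by
    intro c α β
    simp only [B]
    simp only [Finset.mul_sum]
    rw [Finset.sum_comm, ← Finset.sum_neg_distrib]
    refine Finset.sum_congr rfl fun p _ => ?_
    rw [← Finset.sum_neg_distrib]
    refine Finset.sum_congr rfl fun q _ => ?_
    rw [hskew q c p]
    ring
  have hlin : ∀ (f : (κ → ℂ) → ℂ) (x w : κ → ℂ),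
      ∑ q, w q * fderiv ℂ f x (Pi.single q 1) = fderiv ℂ f x w := by
    intro f x w
    have h1 : w = ∑ q, w q • (Pi.single q (1 : ℂ) : κ → ℂ) := by
      funext k
      simp [Finset.sum_apply, Pi.single_apply]
    conv_rhs => rw [h1]
    rw [map_sum]
    refine Finset.sum_congr rfl fun q _ => ?_
    rw [map_smul, smul_eq_mul]
  -- the Taylor coefficients of the differential along the line
  have key : ∀ f : (κ → ℂ) → ℂ, InvAt (opA b) a f → ∃ α : ℕ → κ → ℂ,
      (∀ m p, fderiv ℂ (tayE a f (m + 1)) t (Pi.single p 1) = α m p) ∧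
      (∀ γ, B a γ (α 0) = 0) ∧ ∀ m γ, B a γ (α (m + 1)) + B t γ (α m) = 0 := by
    intro f hf
    have hrr : ∀ p, _ := fun p => COMaux.rec_rel (opA b p a) (opA b p t)
      (fun q s => fderiv ℂ f (a + s • t) (Pi.single q 1))
      (fun q => COMaux.anal_apply t (Pi.single q (1 : ℂ)) hf.1) (by
        have h1 : Filter.Tendsto (fun s : ℂ => a + s • t) (nhds 0) (nhds a) := by
          have : Continuous (fun s : ℂ => a + s • t) := by fun_prop
          simpa using this.tendsto 0
        filter_upwards [h1.eventually hf.2] with s hs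
        have h2 := hs p
        rw [← hlin f (a + s • t) (opA b p (a + s • t))] at h2
        rw [← h2]
        refine Finset.sum_congr rfl fun q _ => ?_
        rw [map_add, map_smul, Pi.add_apply, Pi.smul_apply, smul_eq_mul])
    refine ⟨fun m p => COMaux.tau m (fun s => fderiv ℂ f (a + s • t) (Pi.single p 1)), ?_, ?_, ?_⟩
    · intro m p
      rw [COMaux.fderiv_tayE hf.1]
      rfl
    · intro γ
      simp only [B]
      refine Finset.sum_eq_zero fun p _ => ?_
      have := (hrr p).1
      simp only [mul_comm] at this ⊢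
      rw [this]
      simp
    · intro m γ
      simp only [B]
      rw [← Finset.sum_add_distrib]
      refine Finset.sum_eq_zero fun p _ => ?_
      have := (hrr p).2 m
      rw [← mul_add]
      simp only [mul_comm] at this ⊢
      rw [this]
      simp
  obtain ⟨α, hα, hα0, hα1⟩ := key f hf
  obtain ⟨β, hβ, hβ0, hβ1⟩ := key h hh
  have main : ∀ j' i', B t (α i') (β j') = 0 := by
    intro j'
    induction j' with
    | zero =>
      intro i'
      have h1 := hα1 i' (β 0)
      have h2 := hβ0 (α (i' + 1))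
      rw [hB a] at h1
      rw [hB t]
      linear_combination -h1 - h2
    | succ j' ih =>
      intro i'
      have h1 := hα1 i' (β (j' + 1))
      have h2 := hβ1 j' (α (i' + 1))
      have h3 := ih (i' + 1)
      rw [hB a] at h1
      rw [hB t]
      linear_combination -h1 - h2 + h3
  obtain ⟨i, rfl⟩ : ∃ i', i = i' + 1 := ⟨i - 1, by omega⟩
  obtain ⟨j, rfl⟩ : ∃ j', j = j' + 1 := ⟨j - 1, by omega⟩
  have hfin := main j i
  simp only [B] at hfin
  rw [pbE, ← hfin]
  refine Finset.sum_congr rfl fun p _ => ?_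
  rw [hα, ← hlin]
  congr 1
  refine Finset.sum_congr rfl fun q _ => ?_
  rw [hβ, mul_comm]

end Pool.MFQ
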