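import Pool.Agent.H51.MFQ.S1

/-!
# MFQ, module ALG: relations between Poisson commuting elements lift to `U`
-/

set_option autoImplicit false

open Module

namespace Pool.MFQ

open MvPolynomial

namespace ALGaux

variable {σ τ U J : Type} [Fintype τ] [Ring U] [Algebra ℂ U]

/-- the `S(V)`-linear map `R ↦ ∑ e(R_α) t^α` -/
theorem exists_phi (O : Ore σ τ U) (ev : MvPolynomial J ℂ →ₐ[ℂ] U) :
    ∃ Φ : MvPolynomial J (MvPolynomial σ ℂ) →+ U,
      (∀ c R, Φ (C c * R) = O.e c * Φ R) ∧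
      (∀ (R : MvPolynomial J (MvPolynomial σ ℂ)) (β : J →₀ ℕ),
        Φ (R * monomial β 1) = Φ R * ev (monomial β 1)) ∧
      (∀ a, Φ (X a) = ev (X a)) ∧ (∀ c, Φ (C c) = O.e c) ∧
      ∀ R : MvPolynomial J ℂ, Φ (map (algebraMap ℂ (MvPolynomial σ ℂ)) R) = ev R := by
  let _ : Module (MvPolynomial σ ℂ) U := Module.compHom U (O.e : MvPolynomial σ ℂ →+* U)
  have hsm : ∀ (c : MvPolynomial σ ℂ) (u : U), c • u = O.e c * u := fun c u => rfl
  obtain ⟨Φ, hΦ⟩ : ∃ Φ : MvPolynomial J (MvPolynomial σ ℂ) →ₗ[MvPolynomial σ ℂ] U,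
      ∀ α : J →₀ ℕ, Φ (monomial α 1) = ev (monomial α 1) := by
    refine ⟨(MvPolynomial.basisMonomials J (MvPolynomial σ ℂ)).constr ℕ
      (fun α => ev (monomial α 1)), fun α => ?_⟩
    have := (MvPolynomial.basisMonomials J (MvPolynomial σ ℂ)).constr_basis ℕ
      (fun α => ev (monomial α 1)) α
    rwa [MvPolynomial.coe_basisMonomials] at this
  have hmon : ∀ (α : J →₀ ℕ) (r : MvPolynomial σ ℂ),
      (monomial α r : MvPolynomial J (MvPolynomial σ ℂ)) = r • monomial α 1 := fun α r => by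
    rw [smul_monomial, smul_eq_mul, mul_one]
  have hΦm : ∀ (R : MvPolynomial J (MvPolynomial σ ℂ)) (β : J →₀ ℕ),
      Φ (R * monomial β 1) = Φ R * ev (monomial β 1) := by
    intro R β
    induction R using MvPolynomial.induction_on' with
    | monomial α r =>
      rw [hmon α r, smul_mul_assoc, map_smul, map_smul, monomial_mul, one_mul, hΦ, hΦ, hsm, hsm,
        mul_assoc, ← map_mul, monomial_mul, one_mul]
    | add p q hp hq => rw [add_mul, map_add, map_add, hp, hq, add_mul]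
  have hCm : ∀ (c : MvPolynomial σ ℂ) (R : MvPolynomial J (MvPolynomial σ ℂ)),
      Φ (C c * R) = O.e c * Φ R := fun c R => by rw [C_mul', map_smul, hsm]
  refine ⟨Φ.toAddMonoidHom, hCm, hΦm, fun a => hΦ (Finsupp.single a 1), fun c => ?_, fun R => ?_⟩
  · have h1 := hCm c 1
    rw [mul_one] at h1
    have h2 : Φ 1 = 1 := by
      have := hΦ 0
      rw [← C_apply, ← C_apply, C_1, C_1] at this
      rw [this, map_one]
    change Φ (C c) = _
    rw [h1, h2, mul_one]
  · change Φ _ = _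
    induction R using MvPolynomial.induction_on' with
    | monomial α r =>
      rw [map_monomial, hmon, map_smul, hΦ, hsm, AlgHom.commutes, ← Algebra.smul_def, ← map_smul,
        smul_monomial, smul_eq_mul, mul_one]
    | add p q hp hq => rw [map_add, map_add, map_add, hp, hq]

/-- the kernel contains an ideal as large as possible -/
theorem exists_ideal (O : Ore σ τ U) (ev : MvPolynomial J ℂ →ₐ[ℂ] U)
    (Φ : MvPolynomial J (MvPolynomial σ ℂ) →+ U)
    (hCm : ∀ c R, Φ (C c * R) = O.e c * Φ R)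
    (hΦm : ∀ (R : MvPolynomial J (MvPolynomial σ ℂ)) (β : J →₀ ℕ),
      Φ (R * monomial β 1) = Φ R * ev (monomial β 1)) :
    ∃ K : Ideal (MvPolynomial J (MvPolynomial σ ℂ)), ∀ R, R ∈ K ↔ Φ R = 0 := by
  have key : ∀ R, Φ R = 0 → ∀ R', Φ (R' * R) = 0 := by
    intro R hR R'
    induction R' using MvPolynomial.induction_on' with
    | monomial α r =>
      have h1 : (monomial α r : MvPolynomial J (MvPolynomial σ ℂ)) * R =
          C r * (R * monomial α 1) := by
        rw [mul_comm R, ← mul_assoc, C_mul_monomial, mul_one]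
      rw [h1, hCm, hΦm, hR, zero_mul, mul_zero]
    | add p q hp hq => rw [add_mul, map_add, hp, hq, add_zero]
  let K : Ideal (MvPolynomial J (MvPolynomial σ ℂ)) :=
    { carrier := {R | Φ R = 0}
      add_mem' := by
        intro a b ha hb
        change Φ (a + b) = 0
        rw [map_add, ha, hb, add_zero]
      zero_mem' := map_zero Φ
      smul_mem' := fun c x hx => key x hx c }
  exact ⟨K, fun R => Iff.rfl⟩

/-- the relation of one element, as an element of the ideal and of the kernel of `Ψ` -/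
theorem rel_mem (hREL : RELStmt) (O : Ore σ τ U) (P : J → Lm σ τ)
    (hbr : ∀ a b, brG O.D O.c O.β (P a) (P b) = 0)
    (Φ : MvPolynomial J (MvPolynomial σ ℂ) →+ U)
    (hCm : ∀ c R, Φ (C c * R) = O.e c * Φ R)
    (hX : ∀ a, Φ (X a) = O.th (P a)) (hC : ∀ c, Φ (C c) = O.e c)
    (I : Finset J) (hlin : LinearIndependent (MvPolynomial σ ℂ) (fun a : I => (P a).2)) (j : J)
    (hdep : ∃ (c : MvPolynomial σ ℂ) (ψ : I → MvPolynomial σ ℂ), c ≠ 0 ∧
      c • (P j).2 = ∑ a, ψ a • (P a).2) :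
    ∃ (c : MvPolynomial σ ℂ) (w : MvPolynomial I (MvPolynomial σ ℂ)), c ≠ 0 ∧
      Φ (C c * X j - rename (fun a : I => (a : J)) w) = 0 ∧
      aeval (fun j => toP (P j)) (C c * X j - rename (fun a : I => (a : J)) w) = 0 := by
  obtain ⟨c, ψ, hc, hcψ⟩ := hdep
  have hk : ∀ k, c * (P j).2 k = ∑ a, ψ a * (P (a : J)).2 k := by
    intro k
    have := congrFun hcψ k
    simpa [Finset.sum_apply, Pi.smul_apply, smul_eq_mul] using this
  have h0 : c * (P j).1 = ∑ a, ψ a * (P (a : J)).1 + (c * (P j).1 - ∑ a, ψ a * (P (a : J)).1) := by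
    ring
  have h1 := hREL σ τ U I O (fun a => P a) (P j) c ψ _ hlin (fun a b => hbr _ _)
    (fun a => hbr _ _) hc hk h0
  refine ⟨c, ∑ a, C (ψ a) * X a + C (c * (P j).1 - ∑ a, ψ a * (P (a : J)).1), hc, ?_, ?_⟩
  · simp only [map_sub, map_add, map_sum, map_mul, rename_C, rename_X, hCm, hX, hC]
    rw [h1]
    simp only [map_sub, map_sum, map_mul, sub_self]
  · have h2 : ∀ c : MvPolynomial σ ℂ, (aeval (fun j => toP (P j)) :
        MvPolynomial J (MvPolynomial σ ℂ) →ₐ[MvPolynomial σ ℂ]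
        MvPolynomial τ (MvPolynomial σ ℂ)) (C c) = C c := fun c => by
      simp [MvPolynomial.algebraMap_eq]
    simp only [map_sub, map_add, map_sum, map_mul, rename_C, rename_X, h2, aeval_X]
    have h4 : C c * ∑ i, C ((P j).2 i) * X i = (∑ a : I, C (ψ a) * ∑ i, C ((P (a : J)).2 i) * X i :
        MvPolynomial τ (MvPolynomial σ ℂ)) := by
      simp only [Finset.mul_sum]
      rw [Finset.sum_comm]
      refine Finset.sum_congr rfl fun i _ => ?_
      simp only [← mul_assoc, ← C_mul, ← Finset.sum_mul, ← map_sum, hk]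
    simp only [toP, mul_add, Finset.sum_add_distrib, h4]
    ring

/-- clearing denominators -/
theorem clear {s I : Finset J} (K : Ideal (MvPolynomial J (MvPolynomial σ ℂ)))
    (hrel : ∀ j ∈ s, ∃ (c : MvPolynomial σ ℂ) (w : MvPolynomial I (MvPolynomial σ ℂ)), c ≠ 0 ∧
      (C c * X j - rename (fun a : I => (a : J)) w) ∈ K)
    (R : MvPolynomial s (MvPolynomial σ ℂ)) : ∃ (c : MvPolynomial σ ℂ)
      (w : MvPolynomial I (MvPolynomial σ ℂ)), c ≠ 0 ∧
      (C c * rename (fun a : s => (a : J)) R - rename (fun a : I => (a : J)) w) ∈ K := by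
  induction R using MvPolynomial.induction_on with
  | C a =>
    refine ⟨1, C a, one_ne_zero, ?_⟩
    rw [rename_C, rename_C, C_1, one_mul, sub_self]
    exact zero_mem _
  | add p q hp hq =>
    obtain ⟨c₁, w₁, hc₁, h₁⟩ := hp
    obtain ⟨c₂, w₂, hc₂, h₂⟩ := hq
    refine ⟨c₁ * c₂, C c₂ * w₁ + C c₁ * w₂, mul_ne_zero hc₁ hc₂, ?_⟩
    have h3 := add_mem (Ideal.mul_mem_left _ (C c₂) h₁) (Ideal.mul_mem_left _ (C c₁) h₂)
    have h4 : C (c₁ * c₂) * rename (fun a : s => (a : J)) (p + q) -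
        rename (fun a : I => (a : J)) (C c₂ * w₁ + C c₁ * w₂) =
        C c₂ * (C c₁ * rename (fun a : s => (a : J)) p - rename (fun a : I => (a : J)) w₁) +
        C c₁ * (C c₂ * rename (fun a : s => (a : J)) q - rename (fun a : I => (a : J)) w₂) := by
      simp only [map_add, map_mul, rename_C]
      ring
    rw [h4]
    exact h3
  | mul_X p j hp =>
    obtain ⟨c₁, w₁, hc₁, h₁⟩ := hp
    obtain ⟨c₂, w₂, hc₂, h₂⟩ := hrel j j.2
    refine ⟨c₁ * c₂, w₁ * w₂, mul_ne_zero hc₁ hc₂, ?_⟩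
    have h3 := add_mem (Ideal.mul_mem_left _ (C c₂ * X (j : J)) h₁)
      (Ideal.mul_mem_left _ (rename (fun a : I => (a : J)) w₁) h₂)
    have h4 : C (c₁ * c₂) * rename (fun a : s => (a : J)) (p * X j) -
        rename (fun a : I => (a : J)) (w₁ * w₂) =
        C c₂ * X (j : J) *
          (C c₁ * rename (fun a : s => (a : J)) p - rename (fun a : I => (a : J)) w₁) +
        rename (fun a : I => (a : J)) w₁ *
          (C c₂ * X (j : J) - rename (fun a : I => (a : J)) w₂) := by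
      simp only [map_mul, rename_X]
      ring
    rw [h4]
    exact h3

end ALGaux

/-- ALG -/
theorem t_alg (hREL : RELStmt) (hDEP : DEPStmt) (hIND : INDStmt) : ALGStmt := by
  classical
  intro σ τ U J _ _ _ O P hbr htf ev hev Q hQ
  obtain ⟨Φ, hCm, hΦm, hX, hC, hQS⟩ := ALGaux.exists_phi O ev
  obtain ⟨K, hK⟩ := ALGaux.exists_ideal O ev Φ hCm hΦm
  have hX' : ∀ a, Φ (X a) = O.th (P a) := fun a => by rw [hX, hev]
  obtain ⟨s, q, rfl⟩ := MvPolynomial.exists_finset_rename Q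
  obtain ⟨I, hIs, hlin, hdep⟩ := hDEP (MvPolynomial σ ℂ) (τ → MvPolynomial σ ℂ) J
    (fun j => (P j).2) s
  let Ψ : MvPolynomial J (MvPolynomial σ ℂ) →ₐ[MvPolynomial σ ℂ]
    MvPolynomial τ (MvPolynomial σ ℂ) := aeval (fun j => toP (P j))
  have hrel : ∀ j ∈ s, ∃ (c : MvPolynomial σ ℂ) (w : MvPolynomial I (MvPolynomial σ ℂ)), c ≠ 0 ∧
      (C c * X j - rename (fun a : I => (a : J)) w) ∈ K ⊓ RingHom.ker Ψ := by
    intro j hj
    obtain ⟨c, w, hc, h1, h2⟩ := ALGaux.rel_mem hREL O P hbr Φ hCm hX' hC I hlin j (hdep j hj)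
    exact ⟨c, w, hc, (hK _).2 h1, h2⟩
  obtain ⟨c, w, hc, hw1, hw2⟩ := ALGaux.clear (K ⊓ RingHom.ker Ψ) hrel
    (map (algebraMap ℂ (MvPolynomial σ ℂ)) q)
  rw [← map_rename] at hw1 hw2
  have hQ' : Ψ (map (algebraMap ℂ (MvPolynomial σ ℂ)) (rename (fun a : s => (a : J)) q)) = 0 := by
    rw [← hQ]
    exact aeval_map_algebraMap _ _ _
  have hw : w = 0 := by
    have h1 : Ψ (rename (fun a : I => (a : J)) w) = 0 := by
      have h2 : Ψ (C c * map (algebraMap ℂ (MvPolynomial σ ℂ)) (rename (fun a : s => (a : J)) q) -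
          rename (fun a : I => (a : J)) w) = 0 := hw2
      rw [map_sub, map_mul, hQ', mul_zero, zero_sub, neg_eq_zero] at h2
      exact h2
    have h3 := hIND (MvPolynomial σ ℂ) τ I (fun a => (P a).1) (fun a => (P a).2) hlin
    refine h3.eq_zero_of_aeval_eq_zero w ?_
    rw [← h1]
    change _ = aeval (fun j => toP (P j)) (rename (fun a : I => (a : J)) w)
    rw [aeval_rename]
    rfl
  rw [hw, map_zero, sub_zero] at hw1
  have h5 := (hK _).1 hw1
  rw [hCm, hQS] at h5
  exact htf c hc _ h5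

end Pool.MFQ
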