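import Pool.Agent.H51.MFQ.S1

/-!
# MFQ, module DEP: linear algebra over a domain
-/

set_option autoImplicit false

open Module

namespace Pool.MFQ

/-- DEP -/
theorem t_dep : DEPStmt := by
  classical
  intro R M J _ _ _ _ v s
  have hne : (s.powerset.filter fun I : Finset J =>
      LinearIndependent R (fun a : I => v a)).Nonempty :=
    ⟨∅, Finset.mem_filter.2 ⟨Finset.empty_mem_powerset s, linearIndependent_empty_type⟩⟩
  obtain ⟨I, hI, hmax⟩ := Finset.exists_max_image _ Finset.card hne
  rw [Finset.mem_filter, Finset.mem_powerset] at hI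
  refine ⟨I, hI.1, hI.2, fun j hj => ?_⟩
  by_cases hjI : j ∈ I
  · refine ⟨1, Pi.single ⟨j, hjI⟩ 1, one_ne_zero, ?_⟩
    rw [one_smul, Finset.sum_eq_single (⟨j, hjI⟩ : I)]
    · rw [Pi.single_eq_same, one_smul]
    · intro b _ hb
      rw [Pi.single_eq_of_ne hb, zero_smul]
    · intro h
      exact absurd (Finset.mem_univ _) h
  have hnot : ¬ LinearIndependent R (fun a : (insert j I : Finset J) => v a) := by
    intro h
    have h1 := hmax (insert j I) (Finset.mem_filter.2
      ⟨Finset.mem_powerset.2 (Finset.insert_subset hj hI.1), h⟩)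
    rw [Finset.card_insert_of_notMem hjI] at h1
    omega
  rw [Fintype.not_linearIndependent_iff] at hnot
  obtain ⟨g, hg, i, hi⟩ := hnot
  -- a function on all of `J`
  let G : J → R := fun a => if h : a ∈ insert j I then g ⟨a, h⟩ else 0
  have hG : ∀ a : (insert j I : Finset J), g a = G a := fun a => by
    simp only [G]
    rw [dif_pos a.2]
  have h1 : G j • v j + ∑ a ∈ I, G a • v a = 0 := by
    rw [← Finset.sum_insert (f := fun a => G a • v a) hjI,
      ← Finset.sum_coe_sort (insert j I) (fun a => G a • v a), ← hg]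
    exact Finset.sum_congr rfl fun a _ => by rw [hG]
  refine ⟨G j, fun a => - G a, ?_, ?_⟩
  · intro hGj
    rw [hGj, zero_smul, zero_add, ← Finset.sum_coe_sort] at h1
    have h2 := Fintype.linearIndependent_iff.1 hI.2 (fun a => G a) h1
    apply hi
    rw [hG]
    rcases Finset.mem_insert.1 i.2 with h3 | h3
    · rw [h3, hGj]
    · exact h2 ⟨i, h3⟩
  · rw [eq_neg_of_add_eq_zero_left h1, ← Finset.sum_coe_sort, ← Finset.sum_neg_distrib]
    exact Finset.sum_congr rfl fun a _ => by rw [neg_smul]

end Pool.MFQ
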